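import Pool.Agent.Helper15.UL.GoalsE

/-! # MP_57a173_lc: CDP, countable dependence -/

noncomputable section

namespace UL.PkCDP

open UL MeasureTheory

theorem thm : UL.G_GEN → UL.G_CDP := by
  classical
  intro hG
  refine ⟨?_, ?_, ?_⟩
  · intro I S hS
    refine hG.2.1 I (fun S => ∃ A : Set I, A.Countable ∧ DepD A S) ?_ ?_ ?_ ?_ S hS
    · exact ⟨∅, Set.countable_empty, fun x z z' _ => by simp⟩
    · rintro S (⟨n, rfl⟩ | ⟨ξ, i, rfl⟩)
      · exact ⟨∅, Set.countable_empty, fun x z z' _ => Iff.rfl⟩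
      · refine ⟨{ξ}, Set.countable_singleton ξ, fun x z z' h => ?_⟩
        show z ξ i = true ↔ z' ξ i = true
        rw [h ξ rfl]
    · rintro S ⟨A, hA, h⟩
      exact ⟨A, hA, fun x z z' hz => not_congr (h x z z' hz)⟩
    · intro S hS
      choose A hA h using hS
      refine ⟨⋃ n, A n, Set.countable_iUnion hA, fun x z z' hz => ?_⟩
      rw [Set.mem_iUnion, Set.mem_iUnion]
      exact exists_congr fun n => h n x z z' fun ξ hξ => hz ξ (Set.mem_iUnion.2 ⟨n, hξ⟩)
  · intro I A D S hA hD x z z' hz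
    let z'' : Pt I := fun ξ => if ξ ∈ D then z ξ else z' ξ
    have h1 : (x, z) ∈ S ↔ (x, z'') ∈ S := hD x z z'' fun ξ hξ => by simp only [z'', if_pos hξ]
    have h2 : (x, z'') ∈ S ↔ (x, z') ∈ S := hA x z'' z' fun ξ hξ => by
      by_cases h : ξ ∈ D
      · simp only [z'', if_pos h]
        exact hz ξ ⟨hξ, h⟩
      · simp only [z'', if_neg h]
    exact h1.trans h2
  · intro J c
    induction c with
    | atom j =>
      exact ⟨{j}, Set.countable_singleton j, fun v v' h => h j rfl⟩
    | neg c ih =>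
      obtain ⟨A, hA, h⟩ := ih
      exact ⟨A, hA, fun v v' hv => not_congr (h v v' hv)⟩
    | or c ih =>
      choose A hA h using ih
      refine ⟨⋃ n, A n, Set.countable_iUnion hA, fun v v' hv => ?_⟩
      exact exists_congr fun n => h n v v' fun j hj => hv j (Set.mem_iUnion.2 ⟨n, hj⟩)

end UL.PkCDP
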