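import Pool.Agent.Helper15.UL.GoalsA

/-! # MP_57a173_lc: RL, the rank argument -/

set_option linter.unusedSectionVars false

noncomputable section

namespace UL.PkRL

open UL

variable {I : Type}

/-- Membership in a cone with finite support depends on finitely many bits. -/
theorem mem_B_congr {τ : I → Str} (hf : (Sp τ).Finite) {z z' : Pt I}
    (h : ∀ ξ ∈ hf.toFinset, ∀ i, i < hf.toFinset.sup (fun ξ => (τ ξ).length) → z' ξ i = z ξ i)
    (hz : z ∈ B τ) : z' ∈ B τ := by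
  intro ξ
  by_cases hξ : ξ ∈ Sp τ
  · intro i hi
    rw [h ξ (by simpa using hξ) i (lt_of_lt_of_le hi
      (Finset.le_sup (f := fun ξ => (τ ξ).length) (by simpa using hξ)))]
    exact hz ξ i hi
  · have : τ ξ = [] := by simpa [Sp] using hξ
    rw [this]; exact pre_nil _

open Classical in
/-- The first index of a cone containing `z` is locally constant. -/
theorem LC_find {D : Set I} {τ : ℕ → I → Str} (h : ∀ l, (Sp (τ l)).Finite ∧ Sp (τ l) ⊆ D)
    (hc : ∀ z, ∃ l, z ∈ B (τ l)) : LC D (fun z => Nat.find (hc z)) := by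
  refine ⟨⋃ l, Sp (τ l), Set.iUnion_subset fun l => (h l).2,
    Set.countable_iUnion fun l => (h l).1.countable, fun z => ?_⟩
  set l0 := Nat.find (hc z) with hl0
  refine ⟨(Finset.range (l0 + 1)).biUnion fun l => (h l).1.toFinset, ?_,
    (Finset.range (l0 + 1)).sup fun l => (h l).1.toFinset.sup (fun ξ => (τ l ξ).length), ?_⟩
  · intro ξ hξ
    simp only [Finset.coe_biUnion, Set.mem_iUnion] at hξ
    obtain ⟨l, _, hξ⟩ := hξ
    exact Set.mem_iUnion.2 ⟨l, by simpa using hξ⟩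
  · intro z' hz'
    have key : ∀ l, l ≤ l0 → (z' ∈ B (τ l) ↔ z ∈ B (τ l)) := by
      intro l hl
      have hl' : l ∈ Finset.range (l0 + 1) := Finset.mem_range.2 (by omega)
      have e : ∀ ξ ∈ (h l).1.toFinset, ∀ i,
          i < (h l).1.toFinset.sup (fun ξ => (τ l ξ).length) → z' ξ i = z ξ i := by
        intro ξ hξ i hi
        refine hz' ξ (Finset.mem_biUnion.2 ⟨l, hl', hξ⟩) i (lt_of_lt_of_le hi ?_)
        exact Finset.le_sup
          (f := fun l => (h l).1.toFinset.sup (fun ξ => (τ l ξ).length)) hl'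
      exact ⟨fun h1 => mem_B_congr (h l).1 (fun ξ hξ i hi => (e ξ hξ i hi).symm) h1,
        fun h1 => mem_B_congr (h l).1 e h1⟩
    rw [Nat.find_eq_iff]
    refine ⟨(key l0 le_rfl).2 (Nat.find_spec (hc z)), fun l hl => ?_⟩
    rw [key l hl.le]
    exact Nat.find_min (hc z) hl

variable [LinearOrder I]

theorem J_at1_nil (ε : I) : J (at1 ε ([] : Str)) = id := by
  have : at1 ε ([] : Str) = fun _ => [] := by
    funext ξ
    simp [at1]
  rw [this, J_nil]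

theorem Bad.comp {ε : I} {P : Bool → (Pt I → Pt I) → Prop} {b : Bool} {s : Str}
    {ψ χ : Pt I → Pt I} (h : Bad ε P b s ψ) (hχ : MD (Set.Iio ε) χ) : Bad ε P b s (ψ ∘ χ) :=
  fun χ' hχ' => h (χ ∘ χ') (hχ.comp hχ')

theorem Bad.of_eq {ε : I} {P : Bool → (Pt I → Pt I) → Prop} {b : Bool} {s : Str}
    {ψ ψ' : Pt I → Pt I} (h : Bad ε P b s ψ) (e : ψ = ψ') : Bad ε P b s ψ' := e ▸ h

/-- A factor of a map in `MD D` through cones in `D` is in `MD D`. -/
theorem MD_fact {D : Set I} {ρ g' : Pt I → Pt I} {τ κ : I → Str} (hρ : MD D ρ) (hg' : IsM g')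
    (hτ : Sp τ ⊆ D) (hκ : Sp κ ⊆ D) (e : ρ ∘ J κ = J τ ∘ g') : MD D g' := by
  refine ⟨hg', fun w ξ hξ => ?_⟩
  have e1 := congrFun (congrFun e w) ξ
  have t0 : τ ξ = [] := by
    by_contra hc'
    exact hξ (hτ hc')
  have r0 : κ ξ = [] := by
    by_contra hc'
    exact hξ (hκ hc')
  rw [Function.comp_apply, Function.comp_apply, J_apply, t0, catY_nil, hρ.2 _ ξ hξ, J_apply, r0,
    catY_nil] at e1
  exact e1.symm

theorem thm : UL.G_RL4 → UL.G_TREE → UL.G_RL := by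
  classical
  intro hRL4 hTREE I _ ε hFPS P hP hdense ψ hψ
  by_contra hcon
  set D : Set I := Set.Iio ε with hDdef
  have hD : IsLowerSet D := isLowerSet_Iio ε
  have hεD : ε ∉ D := fun h => lt_irrefl ε h
  -- step 0
  have hbad0 : ∀ b, Bad ε P b [] ψ := by
    intro b χ hχ hg
    obtain ⟨φ, h1, h2, h3⟩ := hg
    rw [J_at1_nil] at h3
    exact hcon ⟨χ, hχ, b, φ, h1, h2, h3⟩
  -- the dense sets
  let Q : Str → (Pt I → Pt I) → Prop := fun s χ =>
    (∀ χ', MD D χ' → ¬ ∀ b, Bad ε P b s (ψ ∘ χ ∘ χ')) ∨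
      ∃ i, ∀ m, i ≤ m → ∀ b, Bad ε P b (s ++ zs m ++ [true]) (ψ ∘ χ)
  have hQd : ∀ s, Dns D (Q s) := by
    intro s f hf
    by_cases h : ∀ χ', MD D χ' → ¬ ∀ b, Bad ε P b s (ψ ∘ f ∘ χ')
    · exact ⟨id, MD.id' D, Or.inl h⟩
    · push Not at h
      obtain ⟨χ', hχ', hb⟩ := h
      have hψ1 : MD D (ψ ∘ f ∘ χ') := hψ.comp (hf.comp hχ')
      obtain ⟨χ1, hχ1, i1, h1⟩ := hRL4 I ε hFPS P hP false s _ hψ1 (hb false)
      have hb2 : Bad ε P true s ((ψ ∘ f ∘ χ') ∘ χ1) := Bad.comp (hb true) hχ1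
      obtain ⟨χ2, hχ2, i2, h2⟩ := hRL4 I ε hFPS P hP true s _ (hψ1.comp hχ1) hb2
      refine ⟨χ' ∘ χ1 ∘ χ2, hχ'.comp (hχ1.comp hχ2), Or.inr ⟨max i1 i2, fun m hm b => ?_⟩⟩
      cases b
      · show Bad ε P false _ (((ψ ∘ f ∘ χ') ∘ χ1) ∘ χ2)
        exact Bad.comp (h1 m (le_trans (le_max_left _ _) hm)) hχ2
      · exact h2 m (le_trans (le_max_right _ _) hm)
  have hQo : ∀ s, Opn D (Q s) := by
    intro s f g hf hq hg
    rcases hq with h | ⟨i, h⟩
    · left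
      intro χ' hχ'
      exact h (g ∘ χ') (hg.comp hχ')
    · right
      refine ⟨i, fun m hm b => ?_⟩
      show Bad ε P b _ ((ψ ∘ f) ∘ g)
      exact Bad.comp (h m hm b) hg
  -- the fusion
  obtain ⟨e, he⟩ := exists_surjective_nat Str
  obtain ⟨χ, hχ, -, hcov⟩ := hFPS (fun i => Q (e i)) (fun i => hQd (e i)) (fun i => hQo (e i))
  have hcov' : ∀ s, Cov D χ (Q s) := by
    intro s
    obtain ⟨i, rfl⟩ := he s
    exact hcov i
  have : Nonempty (Pt I) := ⟨fun _ => oneY⟩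
  have hen : ∀ s, ∃ τ : ℕ → I → Str, (∀ l, (Sp (τ l)).Finite ∧ Sp (τ l) ⊆ D ∧
      Q s (χ ∘ J (τ l))) ∧ ∀ z, ∃ l, z ∈ B (τ l) := fun s => (hcov' s).enum
  choose τ hτ hτc using hen
  -- the function `k`
  let A2 : Str → ℕ → Prop := fun s l =>
    ∃ i, ∀ m, i ≤ m → ∀ b, Bad ε P b (s ++ zs m ++ [true]) (ψ ∘ (χ ∘ J (τ s l)))
  let ks : Str → ℕ → ℕ := fun s l => if h : A2 s l then h.choose else 0
  let k : Str → Pt I → ℕ := fun s z => ks s (Nat.find (hτc s z))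
  have hkLC : ∀ s, LC (Set.Iio ε) (k s) := by
    intro s
    exact (LC_find (D := D) (fun l => ⟨(hτ s l).1, (hτ s l).2.1⟩) (hτc s)).map (ks s)
  let BD : Str → Pt I → Prop := fun s z => ∃ τ : I → Str, (Sp τ).Finite ∧ Sp τ ⊆ D ∧ z ∈ B τ ∧
    ∀ b, Bad ε P b s (ψ ∘ χ ∘ J τ)
  have claimA : ∀ s z, BD s z → ∀ m, k s z ≤ m → BD (s ++ zs m ++ [true]) z := by
    rintro s z ⟨ρ, hρf, hρD, hρz, hρb⟩ m hm
    set l := Nat.find (hτc s z) with hl
    have hz : z ∈ B (τ s l) := Nat.find_spec (hτc s z)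
    have hA2 : A2 s l := by
      rcases (hτ s l).2.2 with h | h
      · exfalso
        obtain ⟨κ, ρ', τ', hκz, hκ, hκρ, hκτ⟩ := cone_inter hρz hz
        have hSκ : Sp κ ⊆ D := by
          intro ξ hξ
          rcases hκ ξ with h1 | h1
          · exact hρD (by intro hc; exact hξ (h1.trans hc))
          · exact (hτ s l).2.1 (by intro hc; exact hξ (h1.trans hc))
        have hSκf : (Sp κ).Finite := by
          refine (hρf.union (hτ s l).1).subset fun ξ hξ => ?_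
          rcases hκ ξ with h1 | h1
          · left; intro hc; exact hξ (h1.trans hc)
          · right; intro hc; exact hξ (h1.trans hc)
        have e1 : J κ = J ρ ∘ J ρ' := by
          rw [J_comp]; congr 1; funext ξ; exact hκρ ξ
        have e2 : J κ = J (τ s l) ∘ J τ' := by
          rw [J_comp]; congr 1; funext ξ; exact hκτ ξ
        have m1 : MD D (J ρ') := J_MD (hSκf.subset (Sp_of_suffix hκρ))
          ((Sp_of_suffix hκρ).trans hSκ)
        have m2 : MD D (J τ') := J_MD (hSκf.subset (Sp_of_suffix hκτ))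
          ((Sp_of_suffix hκτ).trans hSκ)
        apply h (J τ') m2
        intro b
        refine Bad.of_eq (Bad.comp (hρb b) m1) ?_
        show ψ ∘ (χ ∘ (J ρ ∘ J ρ')) = ψ ∘ (χ ∘ (J (τ s l) ∘ J τ'))
        rw [← e1, ← e2]
      · exact h
    refine ⟨τ s l, (hτ s l).1, (hτ s l).2.1, hz, ?_⟩
    have hk : k s z = hA2.choose := by
      show ks s l = _
      simp only [ks]
      rw [dif_pos hA2]
    exact hA2.choose_spec m (hk ▸ hm)
  obtain ⟨Θ, L, hL, hΘ, hL0, hLf, hLt⟩ := hTREE I ε k hkLC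
  have hBD0 : ∀ z, BD [] z := by
    intro z
    refine ⟨fun _ => [], by simp [Sp_nil], by simp [Sp_nil], mem_B_nil z, fun b => ?_⟩
    rw [J_nil]
    exact Bad.comp (hbad0 b) hχ
  have claimB : ∀ z σ, ∃ s m, L ε z σ = s ++ zs m ∧ BD s z ∧ k s z ≤ m := by
    intro z σ
    induction σ using List.reverseRecOn with
    | nil => exact ⟨[], k [] z, by rw [hL0]; simp, hBD0 z, le_rfl⟩
    | append_singleton σ b ih =>
      obtain ⟨s, m, h1, h2, h3⟩ := ih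
      cases b
      · refine ⟨s, m + 1, ?_, h2, by omega⟩
        rw [hLf, h1, List.append_assoc]
        congr 1
        simp [zs, List.replicate_succ']
      · refine ⟨s ++ zs m ++ [true], k (s ++ zs m ++ [true]) z, ?_, claimA s z h2 m h3, le_rfl⟩
        rw [hLt, h1]
        simp
  -- density
  obtain ⟨g, b, hg, hPg⟩ := hdense (ψ ∘ χ ∘ Θ) (hψ.1.comp (hχ.1.comp hΘ.1))
  obtain ⟨Lg, hLg⟩ := hg
  have hgM : IsM g := ⟨Lg, hLg⟩
  let z0 : Pt I := fun _ => oneY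
  set σ0 := Lg ε z0 [] with hσ0
  set ρ := lo D g with hρdef
  have hρM : MD D ρ := hgM.lo D
  obtain ⟨s, m, hs1, ⟨τ1, ht1, ht2, ht3, ht4⟩, -⟩ := claimB (ρ z0) σ0
  -- the cone
  have hLC1 : LC D (fun z => (Lg ε z [], L ε (ρ z) σ0)) :=
    (hLg.lc ε []).prod ((hL.lc ε σ0).comp (isLowerSet_Iio ε) hρM.1)
  obtain ⟨A, hA, -, hA'⟩ := LC_iff.1 hLC1
  obtain ⟨κ1, k1f, k1A, k1z, k1c⟩ := hA' z0
  obtain ⟨A', -, hfact⟩ := hρM.1.fact
  obtain ⟨ρ', g', r1, r2, r3, r4, r5⟩ := hfact τ1 z0 ht1 ht3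
  have hρ'D : Sp ρ' ⊆ D := fun ξ hξ => by
    obtain ⟨η, hη, hle⟩ := (r2 ξ hξ).2
    exact hD hle (ht2 hη)
  have hg'M : MD D g' := MD_fact hρM r4 ht2 hρ'D r5
  obtain ⟨κ, κ1', ρ'', hκz, hκ, hκ1, hκρ⟩ := cone_inter k1z r3
  have hSκ : Sp κ ⊆ D := by
    intro ξ hξ
    rcases hκ ξ with h1 | h1
    · exact hA (k1A (by intro hc; exact hξ (h1.trans hc)))
    · exact hρ'D (by intro hc; exact hξ (h1.trans hc))
  have hSκf : (Sp κ).Finite := by
    refine (k1f.union r1).subset fun ξ hξ => ?_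
    rcases hκ ξ with h1 | h1
    · left; intro hc; exact hξ (h1.trans hc)
    · right; intro hc; exact hξ (h1.trans hc)
  have hκ1B : ∀ z ∈ B κ, z ∈ B κ1 := fun z hz ξ =>
    (hz ξ).mono ⟨κ1' ξ, (hκ1 ξ).symm⟩
  have hJκ : MD D (J κ) := J_MD hSκf hSκ
  have hJρ'' : MD D (J ρ'') := J_MD (hSκf.subset (Sp_of_suffix hκρ))
    ((Sp_of_suffix hκρ).trans hSκ)
  have eκ : J κ = J ρ' ∘ J ρ'' := by
    rw [J_comp]; congr 1; funext ξ; exact hκρ ξ
  have hbadκ : ∀ b, Bad ε P b s (ψ ∘ χ ∘ ρ ∘ J κ) := by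
    intro b
    refine Bad.of_eq (Bad.comp (Bad.comp (ht4 b) hg'M) hJρ'') ?_
    show ψ ∘ (χ ∘ ((J τ1 ∘ g') ∘ J ρ'')) = _
    rw [← r5, eκ]
    rfl
  -- the map `F`
  have hF : IsM (Θ ∘ (g ∘ J κ)) := hΘ.1.comp (hgM.comp hJκ.1)
  have hFrep := hL.comp (hLg.comp (J_rep hSκf.countable))
  set F := Θ ∘ (g ∘ J κ) with hFdef
  have hκε : κ ε = [] := by
    by_contra hc
    exact hεD (hSκ hc)
  have hval : ∀ z : Pt I, L ε (g (J κ z)) (Lg ε (J κ z) (κ ε ++ [])) = s ++ zs m := by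
    intro z
    have hz : J κ z ∈ B κ := J_mem_B κ z
    have h1 := k1c (J κ z) (hκ1B _ hz)
    have h2 : Lg ε (J κ z) [] = σ0 := congrArg Prod.fst h1
    have h3 : L ε (ρ (J κ z)) σ0 = L ε (ρ z0) σ0 := congrArg Prod.snd h1
    rw [hκε, List.nil_append, h2, ← hs1, ← h3]
    have h4 : L ε (g (J κ z)) = L ε (ρ (J κ z)) := hL.depL fun η hη => (lo_in (D := D) hη).symm
    rw [h4]
  have hupRep := hFrep.up D
  set h := up D F with hhdef
  have hhU : UD D h := hF.up D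
  have hB : ∀ z, h z ∈ B (at1 ε s) := by
    intro z ξ
    by_cases hξ : ξ = ε
    · subst hξ
      rw [at1_same]
      have h1 := hupRep.preσ (z := z) (ξ := ξ) (σ := []) (pre_nil _)
      rw [if_neg hεD] at h1
      have h2 : Pre (s ++ zs m) (h z ξ) := by
        rw [← hval z]
        exact h1
      exact h2.mono (List.prefix_append _ _)
    · rw [at1_ne s hξ]
      exact pre_nil _
  obtain ⟨φ, hφ, hhφ, hφrep⟩ := hhU.1.strip (at1_fin ε s).countable hB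
  have hφU : UD D φ := by
    refine ⟨hφ, fun z ξ hξ => ?_⟩
    have hne : ξ ≠ ε := fun hc => hεD (hc ▸ hξ)
    have h1 := hhU.2 z ξ hξ
    rw [hhφ, Function.comp_apply, J_apply, at1_ne s hne, catY_nil] at h1
    exact h1
  have hφP : Pure (q1 ε 1) φ := by
    refine ⟨_, hφrep hupRep, fun ξ z σ hσ => ?_⟩
    have hξ : ξ = ε := by
      by_contra hne
      rw [q1_ne 1 hne] at hσ
      omega
    subst hξ
    rw [q1_same] at hσ
    have hσ' : σ = [] := List.length_eq_zero_iff.1 (by omega)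
    subst hσ'
    refine ⟨m, ?_⟩
    rw [at1_same, if_neg hεD]
    show List.drop s.length (L ξ (g (J κ z)) (Lg ξ (J κ z) (κ ξ ++ []))) = _
    rw [hval z]
    simp
  -- conclusion
  have hlo : lo D F = ρ ∘ J κ := by
    rw [hFdef, lo_comp hΘ.1 hD, hΘ.lo_eq, lo_comp hgM hD, hJκ.lo_eq]
    rfl
  have hPF : P b (((ψ ∘ χ ∘ Θ) ∘ g) ∘ J κ) :=
    hP.her b _ _ ((hψ.1.comp (hχ.1.comp hΘ.1)).comp hgM) hPg hJκ.1
  have hfin : ((ψ ∘ χ ∘ Θ) ∘ g) ∘ J κ = (ψ ∘ χ ∘ ρ ∘ J κ) ∘ J (at1 ε s) ∘ φ := by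
    have h1 : F = (ρ ∘ J κ) ∘ h := by
      rw [← hlo]
      exact hF.lo_up hD
    show ψ ∘ (χ ∘ F) = ψ ∘ (χ ∘ ((ρ ∘ J κ) ∘ (J (at1 ε s) ∘ φ)))
    rw [← hhφ, ← h1]
  rw [hfin] at hPF
  have hgood : Good ε P b s ((ψ ∘ χ ∘ ρ ∘ J κ) ∘ id) := ⟨φ, hφU, hφP, hPF⟩
  exact hbadκ b id (MD.id' D) hgood

end UL.PkRL
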